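import Pool.Agent.Run7.h432.LV.Stm

set_option autoImplicit false

open MvPolynomial

namespace Run7.h890.LV

open Run7.h432.LV

universe u

theorem newton_pow {B σ : Type*} [CommRing B] [Fintype σ] [DecidableEq σ] (x : σ → B)
    (hu : ∀ k : ℕ, 1 ≤ k → k ≤ Fintype.card σ → ∀ b : B, (k : B) * b = 0 → b = 0)
    (h : ∀ k : ℕ, 1 ≤ k → k ≤ Fintype.card σ → ∑ i, x i ^ k = 0) (i : σ) :
    x i ^ Fintype.card σ = 0 := by
  have hps : ∀ k : ℕ, 1 ≤ k → k ≤ Fintype.card σ → aeval x (psum σ B k) = 0 := by
    intro k h1 h2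
    rw [psum, map_sum, ← h k h1 h2]
    refine Finset.sum_congr rfl fun i _ => ?_
    rw [map_pow, aeval_X]
  have hes : ∀ k : ℕ, 1 ≤ k → k ≤ Fintype.card σ → aeval x (esymm σ B k) = 0 := by
    intro k h1 h2
    have h3 := congrArg (aeval x) (mul_esymm_eq_sum σ B k)
    rw [map_mul, map_natCast, map_mul, map_sum] at h3
    rw [Finset.sum_eq_zero, mul_zero] at h3
    · exact hu k h1 h2 _ h3
    · intro a ha
      rw [Finset.mem_filter, Finset.HasAntidiagonal.mem_antidiagonal] at ha
      rw [map_mul, hps a.2 (by omega) (by omega), mul_zero]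
  have hv := Multiset.prod_X_sub_X_eq_sum_esymm (Finset.univ.val.map x)
  have h1 : (Finset.univ.val.map x).card = Fintype.card σ := by simp
  rw [h1, Finset.sum_range_succ'] at hv
  rw [Finset.sum_eq_zero] at hv
  · have h4 := congrArg (Polynomial.eval (x i)) hv
    rw [Multiset.map_map] at h4
    have h5 : Polynomial.eval (x i) (Multiset.map ((fun t => Polynomial.X - Polynomial.C t) ∘ x) Finset.univ.val).prod = 0 := by
      have : (Multiset.map ((fun t => Polynomial.X - Polynomial.C t) ∘ x) Finset.univ.val).prod =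
          ∏ j, (Polynomial.X - Polynomial.C (x j)) := rfl
      rw [this, Polynomial.eval_prod]
      exact Finset.prod_eq_zero (Finset.mem_univ i) (by simp)
    rw [h5] at h4
    simpa [Multiset.esymm] using h4.symm
  · intro k hk
    rw [Finset.mem_range] at hk
    have := hes (k + 1) (by omega) (by omega)
    rw [aeval_esymm_eq_multiset_esymm] at this
    rw [this]
    simp

theorem t_PS : S_PS.{u} := by
  intro A _ m htor g hg i
  let L : MvPolynomial (Fin m) ℤ →ₗ[ℤ] A := (basisMonomials (Fin m) ℤ).constr ℤ g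
  have hL : ∀ (k : Fin m →₀ ℕ) (c : ℤ), L (monomial k c) = c • g k := by
    intro k c
    have h1 : (monomial k c : MvPolynomial (Fin m) ℤ) = c • basisMonomials (Fin m) ℤ k := by
      rw [coe_basisMonomials, smul_monomial, smul_eq_mul, mul_one]
    rw [h1, map_smul]
    congr 1
    exact (basisMonomials (Fin m) ℤ).constr_basis ℤ g k
  let J : Ideal (MvPolynomial (Fin m) ℤ) :=
    { carrier := {q | ∀ r, L (r * q) = 0}
      add_mem' := by
        intro a b ha hb r
        rw [mul_add, map_add, ha r, hb r, add_zero]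
      zero_mem' := by
        intro r
        rw [mul_zero, map_zero]
      smul_mem' := by
        intro c q hq r
        rw [smul_eq_mul, ← mul_assoc]
        exact hq _ }
  have memJ : ∀ q, q ∈ J ↔ ∀ r, L (r * q) = 0 := fun q => Iff.rfl
  have hpsum : ∀ j : ℕ, 0 < j → (∑ i, X i ^ j : MvPolynomial (Fin m) ℤ) ∈ J := by
    intro j hj
    rw [memJ]
    intro r
    induction r using MvPolynomial.induction_on' with
    | monomial k c =>
      have h1 : (monomial k c * ∑ i, X i ^ j : MvPolynomial (Fin m) ℤ) =
          ∑ i, monomial (k + Finsupp.single i j) c := by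
        rw [Finset.mul_sum]
        refine Finset.sum_congr rfl fun i _ => ?_
        rw [X_pow_eq_monomial, monomial_mul, mul_one]
      rw [h1, map_sum]
      simp only [hL]
      rw [← Finset.smul_sum, hg k j hj, smul_zero]
    | add p q hp hq => rw [add_mul, map_add, hp, hq, add_zero]
  let B := MvPolynomial (Fin m) ℤ ⧸ J
  have key := newton_pow (B := B) (fun i : Fin m => Ideal.Quotient.mk J (X i))
    (by
      intro n hn hn' b hb
      rw [Fintype.card_fin] at hn'
      obtain ⟨q, rfl⟩ := Ideal.Quotient.mk_surjective b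
      have h1 : (n : B) * Ideal.Quotient.mk J q = Ideal.Quotient.mk J ((n : MvPolynomial (Fin m) ℤ) * q) := by
        rw [map_mul, map_natCast]
      rw [h1, Ideal.Quotient.eq_zero_iff_mem, memJ] at hb
      rw [Ideal.Quotient.eq_zero_iff_mem, memJ]
      intro r
      apply htor n hn hn'
      have h2 := hb r
      have h3 : r * ((n : MvPolynomial (Fin m) ℤ) * q) = n • (r * q) := by
        rw [nsmul_eq_mul]; ring
      rw [h3, map_nsmul] at h2
      exact h2)
    (by
      intro k hk _
      have h1 : ∑ i : Fin m, (Ideal.Quotient.mk J (X i)) ^ k = Ideal.Quotient.mk J (∑ i, X i ^ k) := by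
        rw [map_sum]
        simp only [map_pow]
      rw [h1, Ideal.Quotient.eq_zero_iff_mem]
      exact hpsum k hk) i
  rw [Fintype.card_fin, ← map_pow, Ideal.Quotient.eq_zero_iff_mem, memJ] at key
  have h1 := key 1
  rw [one_mul, X_pow_eq_monomial, hL, one_smul] at h1
  exact h1

end Run7.h890.LV
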